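import Pool.Agent.P.MP_fa9958_co.Main

open Pool.Agent.P.MP_fa9958_co in
/-- The abelian closure of a uniformly recurrent, aperiodic, non-Sturmian binary word with
irrational uniform letter frequency contains uncountably many minimal subshifts. -/
theorem Pool.Agent.Results.MP_fa9958_co.UncountablyMany.result (x : ℕ → Bool) (α : ℝ)
    (hr : UniformlyRecurrent x) (ha : Aperiodic x) (hs : ¬ Sturmian x)
    (hα : HasUniformFrequency x α) (hirr : Irrational α) :
    ¬ {M : Set (ℕ → Bool) | IsMinimalSubshift M ∧ M ⊆ abelianClosure x}.Countable :=
  main hr ha hs hα hirr
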